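import Pool.Agent.helper51.PC.Spec

/-!
# Row pc:ETA
-/

set_option autoImplicit false

namespace Pool.Agent.PC

open MvPolynomial

universe u

section ETAval

variable {K : Type u} [Field K] {v : K → ℤ}

lemma ETA_v1 (hv : DVal v) : v 1 = 0 := by
  have := hv.mul 1 1 one_ne_zero one_ne_zero
  rw [mul_one] at this
  omega

lemma ETA_vneg (hv : DVal v) (x : K) : v (-x) = v x := by
  by_cases hx : x = 0
  · simp [hx]
  · have h1 : v (-1 : K) = 0 := by
      have := hv.mul (-1) (-1) (by simp) (by simp)
      rw [neg_mul_neg, mul_one, ETA_v1 hv] at this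
      omega
    have := hv.mul (-1) x (by simp) hx
    rw [neg_one_mul] at this
    omega

lemma ETA_vinv (hv : DVal v) (x : K) (hx : x ≠ 0) : v x⁻¹ = - v x := by
  have := hv.mul x x⁻¹ hx (inv_ne_zero hx)
  rw [mul_inv_cancel₀ hx, ETA_v1 hv] at this
  omega

lemma ETA_gadd (hv : DVal v) {r : ℤ} {x y : K} (hx : Ge v r x) (hy : Ge v r y) : Ge v r (x + y) := by
  rcases eq_or_ne x 0 with h | h
  · rw [h, zero_add]; exact hy
  rcases eq_or_ne y 0 with h' | h'
  · rw [h', add_zero]; exact hx
  rcases eq_or_ne (x + y) 0 with h'' | h''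
  · left; exact h''
  right
  have := hv.add x y h h' h''
  have h1 := hx.resolve_left h
  have h2 := hy.resolve_left h'
  omega

lemma ETA_gmul (hv : DVal v) {r t : ℤ} {x y : K} (hx : Ge v r x) (hy : Ge v t y) : Ge v (r + t) (x * y) := by
  rcases eq_or_ne x 0 with h | h
  · left; simp [h]
  rcases eq_or_ne y 0 with h' | h'
  · left; simp [h']
  right
  rw [hv.mul x y h h']
  have h1 := hx.resolve_left h
  have h2 := hy.resolve_left h'
  omega

lemma ETA_gneg (hv : DVal v) {r : ℤ} {x : K} (hx : Ge v r x) : Ge v r (-x) := by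
  rcases hx with h | h
  · left; simp [h]
  · right; rwa [ETA_vneg hv]

/-- The valuation ring. -/
def ETA_V (hv : DVal v) : ValuationSubring K where
  carrier := {x | Ge v 0 x}
  mul_mem' := by
    intro x y hx hy
    have := ETA_gmul hv hx hy
    rwa [add_zero] at this
  one_mem' := Or.inr (ETA_v1 hv).ge
  add_mem' := by
    intro x y hx hy
    exact ETA_gadd hv hx hy
  zero_mem' := Or.inl rfl
  neg_mem' := by
    intro x hx
    exact ETA_gneg hv hx
  mem_or_inv_mem' := by
    intro x
    rcases eq_or_ne x 0 with h | h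
    · left; left; exact h
    · rcases le_total 0 (v x) with h' | h'
      · left; right; exact h'
      · right; right; rw [ETA_vinv hv x h]; omega

lemma ETA_memV (hv : DVal v) (x : K) : x ∈ ETA_V hv ↔ Ge v 0 x := Iff.rfl

lemma ETA_int (T : Subring K) (b : K) (P : Polynomial K) (hP : P.Monic) (hc : ∀ i, P.coeff i ∈ T)
    (he : P.eval b = 0) : IsIntegral T b := by
  have hp : (↑P.coeffs : Set K) ⊆ T := by
    intro x hx
    rw [Finset.mem_coe, Polynomial.mem_coeffs_iff] at hx
    obtain ⟨i, -, rfl⟩ := hx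
    exact hc i
  refine ⟨P.toSubring T hp, (Polynomial.monic_toSubring P T hp).2 hP, ?_⟩
  have h1 : (P.toSubring T hp).map (algebraMap T K) = P := Polynomial.map_toSubring P T hp
  rw [Polynomial.eval₂_eq_eval_map, h1]
  exact he

lemma ETA_intV (hv : DVal v) (s : K →+* K) (b : K) (hb : IntS s v b) : Ge v 0 b := by
  obtain ⟨P, hP, hc, he⟩ := hb
  have h1 : IsIntegral (ETA_V hv).toSubring b := ETA_int _ b P hP (fun i => (hc i).2) he
  have h2 : IsIntegral (ETA_V hv) b := h1
  have h3 := (IsIntegrallyClosed.isIntegral_iff (R := ETA_V hv) (K := K)).1 h2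
  obtain ⟨y, hy⟩ := h3
  have := y.2
  rw [← ETA_memV hv, ← hy]
  exact this

lemma ETA_ints (s : K →+* K) (b : K) (hb : IntS s v b) : IntS s v (s b) := by
  obtain ⟨P, hP, hc, he⟩ := hb
  refine ⟨P, hP, hc, ?_⟩
  have h1 : P.map s = P := by
    ext i
    rw [Polynomial.coeff_map]
    exact (hc i).1
  have h2 := Polynomial.eval₂_at_apply s b (p := P)
  rw [Polynomial.eval₂_eq_eval_map, h1, he, map_zero] at h2
  exact h2

lemma ETA_intit (s : K →+* K) (b : K) (hb : IntS s v b) (l : ℕ) : IntS s v (s^[l] b) := by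
  induction l with
  | zero => exact hb
  | succ l ih => rw [Function.iterate_succ_apply']; exact ETA_ints s _ ih

lemma ETA_inv (hv : DVal v) (p : ℕ) [Fact p.Prime] [CharP K p] (l m : ℕ) :
    Ge v 0 ((l : K) - m)⁻¹ := by
  set z : K := (l : K) - m with hz
  rcases eq_or_ne z 0 with h | h
  · left; rw [h, inv_zero]
  · have hzV : z ∈ ETA_V hv := sub_mem (natCast_mem _ l) (natCast_mem _ m)
    have hp2 : 2 ≤ p := (Fact.out : p.Prime).two_le
    have h1 : z ^ p = z := by
      rw [hz, sub_pow_char, ← frobenius_def, ← frobenius_def, map_natCast, map_natCast]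
    have h2 : z⁻¹ = z ^ (p - 2) := by
      apply inv_eq_of_mul_eq_one_left
      have h3 : z * (z ^ (p - 2) * z) = z * 1 := by
        have : z * (z ^ (p - 2) * z) = z ^ (p - 2 + 2) := by ring
        rw [this, Nat.sub_add_cancel hp2, h1, mul_one]
      exact mul_left_cancel₀ h h3
    rw [← ETA_memV hv, h2]
    exact pow_mem hzV _

lemma ETA_coef (hEXP : EXP_stmt.{u}) (hv : DVal v) (p : ℕ) [Fact p.Prime] [CharP K p] (s : K →+* K)
    (hs : ∀ y, s^[p] y = y) (a : K) (ha : s a = a + 1) (hva : Ge v 0 a) (b : K) (hb : IntS s v b) :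
    ∃ c : Fin p → K, (∀ i, c i ∈ OF s v) ∧ b = ∑ i, c i * a ^ (i : ℕ) := by
  obtain ⟨c, hc, hbc⟩ := hEXP K p s hs a ha b
  refine ⟨c, fun i => ⟨hc i, ?_⟩, hbc⟩
  set C : Polynomial K := ∑ i : Fin p, Polynomial.C (c i) * Polynomial.X ^ (i : ℕ) with hC
  have hCa : C.eval a = b := by
    rw [hC, Polynomial.eval_finsetSum, hbc]
    apply Finset.sum_congr rfl
    intro i _
    simp
  have hCs : ∀ x : K, s (C.eval x) = C.eval (s x) := by
    intro x
    rw [hC, Polynomial.eval_finsetSum, Polynomial.eval_finsetSum, map_sum]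
    apply Finset.sum_congr rfl
    intro i _
    simp [hc i]
  have hsl : ∀ l : ℕ, s^[l] a = a + l ∧ s^[l] b = C.eval (a + l) := by
    intro l
    induction l with
    | zero => simp [hCa]
    | succ l ih =>
      rw [Function.iterate_succ_apply', Function.iterate_succ_apply', ih.1, ih.2, hCs]
      have : s (a + l) = a + ((l + 1 : ℕ) : K) := by
        rw [map_add, ha, map_natCast]; push_cast; ring
      rw [this]
      exact ⟨rfl, rfl⟩
  have hcf : C.coeff (i : ℕ) = c i := by
    rw [hC, Polynomial.finsetSum_coeff, Finset.sum_eq_single i]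
    · simp
    · intro j _ hj
      rw [Polynomial.coeff_C_mul, Polynomial.coeff_X_pow, if_neg, mul_zero]
      intro h
      exact hj (Fin.ext h.symm)
    · intro h; exact absurd (Finset.mem_univ i) h
  have hdeg : C.degree < (Finset.range p).card := by
    rw [Finset.card_range, Polynomial.degree_lt_iff_coeff_zero]
    intro m hm
    rw [hC, Polynomial.finsetSum_coeff]
    apply Finset.sum_eq_zero
    intro j _
    rw [Polynomial.coeff_C_mul, Polynomial.coeff_X_pow, if_neg, mul_zero]
    have := j.2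
    omega
  have hinj : Set.InjOn (fun l : ℕ => a + (l : K)) (Finset.range p : Set ℕ) := by
    intro l hl m hm hlm
    simp only at hlm
    have h1 : (l : K) = m := add_left_cancel hlm
    rw [CharP.natCast_eq_natCast K p] at h1
    rw [Finset.mem_coe, Finset.mem_range] at hl hm
    exact Nat.ModEq.eq_of_lt_of_lt h1 hl hm
  have hint := Lagrange.eq_interpolate_of_eval_eq (s := Finset.range p) (v := fun l : ℕ => a + (l : K))
    (fun l => s^[l] b) hinj hdeg (fun l _ => (hsl l).2.symm)
  have hlift : C ∈ Polynomial.lifts (algebraMap (ETA_V hv) K) := by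
    rw [hint, Lagrange.interpolate_apply]
    apply sum_mem
    intro l _
    apply mul_mem
    · apply Polynomial.C'_mem_lifts
      exact ⟨⟨s^[l] b, ETA_intV hv s _ (ETA_intit s b hb l)⟩, rfl⟩
    · rw [Lagrange.basis]
      apply prod_mem
      intro m _
      rw [Lagrange.basisDivisor]
      apply mul_mem
      · apply Polynomial.C'_mem_lifts
        refine ⟨⟨(a + (l : K) - (a + (m : K)))⁻¹, ?_⟩, rfl⟩
        rw [ETA_memV hv, add_sub_add_left_eq_sub]
        exact ETA_inv hv p l m
      · rw [sub_eq_add_neg, ← Polynomial.C_neg]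
        apply add_mem
        · exact Polynomial.X_mem_lifts _
        · apply Polynomial.C'_mem_lifts
          refine ⟨⟨-(a + (m : K)), ?_⟩, rfl⟩
          exact neg_mem (add_mem ((ETA_memV hv a).2 hva) (natCast_mem _ m))
  rw [Polynomial.lifts_iff_coeff_lifts] at hlift
  obtain ⟨y, hy⟩ := hlift i
  rw [hcf] at hy
  rw [← ETA_memV hv, ← hy]
  exact y.2

end ETAval

section ETArow

variable {k K : Type u} [Field k] [Field K] [Algebra k K] {n : ℕ}

/-- The module of the rows. -/
def ETA_W (D : Fin n → Derivation k K K) (s : K →+* K) (v : K → ℤ) : AddSubgroup (Fin n → K) :=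
  AddSubgroup.closure {r | ∃ o : K, Ge v 0 o ∧ ∃ e ∈ OF s v, r = fun j => o * D j e}

lemma ETA_Wmul {v : K → ℤ} (hv : DVal v) (D : Fin n → Derivation k K K) (s : K →+* K) (o : K) (ho : Ge v 0 o)
    (r : Fin n → K) (hr : r ∈ ETA_W D s v) : (fun j => o * r j) ∈ ETA_W D s v := by
  unfold ETA_W at hr
  induction hr using AddSubgroup.closure_induction with
  | mem r hr =>
    obtain ⟨o', ho', e, he, rfl⟩ := hr
    apply AddSubgroup.subset_closure
    refine ⟨o * o', ?_, e, he, ?_⟩
    · have := ETA_gmul hv ho ho'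
      rwa [add_zero] at this
    · funext j; ring
  | zero =>
    have : (fun j : Fin n => o * (0 : Fin n → K) j) = 0 := by funext j; simp
    rw [this]; exact zero_mem _
  | add x y _ _ hx hy =>
    have : (fun j : Fin n => o * (x + y) j) = (fun j => o * x j) + fun j => o * y j := by
      funext j; simp only [Pi.add_apply]; ring
    rw [this]; exact add_mem hx hy
  | neg x _ hx =>
    have : (fun j : Fin n => o * (-x) j) = -(fun j => o * x j) := by
      funext j; simp only [Pi.neg_apply]; ring
    rw [this]; exact neg_mem hx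

/-- The subring of good elements. -/
def ETA_U {v : K → ℤ} (hv : DVal v) (D : Fin n → Derivation k K K) (s : K →+* K) : Subring K where
  carrier := {x | x ∈ ETA_V hv ∧ (fun j => D j x) ∈ ETA_W D s v}
  mul_mem' := by
    intro x y hx hy
    refine ⟨mul_mem hx.1 hy.1, ?_⟩
    have : (fun j => D j (x * y)) = (fun j => x * D j y) + fun j => y * D j x := by
      funext j; simp only [Pi.add_apply, Derivation.leibniz, smul_eq_mul]
    rw [this]
    exact add_mem (ETA_Wmul hv D s x hx.1 _ hy.2) (ETA_Wmul hv D s y hy.1 _ hx.2)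
  one_mem' := by
    refine ⟨one_mem _, ?_⟩
    have : (fun j => D j (1 : K)) = 0 := by funext j; simp
    rw [this]; exact zero_mem _
  add_mem' := by
    intro x y hx hy
    refine ⟨add_mem hx.1 hy.1, ?_⟩
    have : (fun j => D j (x + y)) = (fun j => D j x) + fun j => D j y := by
      funext j; simp only [Pi.add_apply, map_add]
    rw [this]; exact add_mem hx.2 hy.2
  zero_mem' := by
    refine ⟨zero_mem _, ?_⟩
    have : (fun j => D j (0 : K)) = 0 := by funext j; simp
    rw [this]; exact zero_mem _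
  neg_mem' := by
    intro x hx
    refine ⟨neg_mem hx.1, ?_⟩
    have : (fun j => D j (-x)) = -(fun j => D j x) := by
      funext j; simp only [Pi.neg_apply, map_neg]
    rw [this]; exact neg_mem hx.2

lemma ETA_UOF {v : K → ℤ} (hv : DVal v) (D : Fin n → Derivation k K K) (s : K →+* K) (e : K) (he : e ∈ OF s v) :
    e ∈ ETA_U hv D s := by
  refine ⟨he.2, ?_⟩
  apply AddSubgroup.subset_closure
  refine ⟨1, one_mem (ETA_V hv), e, he, ?_⟩
  funext j; rw [one_mul]

lemma ETA_Uinv {v : K → ℤ} (hv : DVal v) (D : Fin n → Derivation k K K) (s : K →+* K) (c : K) (hc : c ∈ ETA_U hv D s)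
    (hc0 : c ≠ 0) (hvc : v c = 0) : c⁻¹ ∈ ETA_U hv D s := by
  have h1 : c⁻¹ ∈ ETA_V hv := by
    rw [ETA_memV]; right; rw [ETA_vinv hv c hc0, hvc]; norm_num
  refine ⟨h1, ?_⟩
  have : (fun j => D j c⁻¹) = fun j => (-(c⁻¹ ^ 2)) * D j c := by
    funext j
    rw [Derivation.leibniz_inv, smul_eq_mul]
  rw [this]
  exact ETA_Wmul hv D s _ (neg_mem (pow_mem h1 2)) _ hc.2

lemma ETA_Ua {v : K → ℤ} (hv : DVal v) (p : ℕ) [Fact p.Prime] [CharP K p] (D : Fin n → Derivation k K K) (s : K →+* K)
    (a : K) (ha : s a = a + 1) (hva : Ge v 0 a) : a ∈ ETA_U hv D s := by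
  have hV : a ∈ ETA_V hv := hva
  have hf : a ^ p - a ∈ OF s v := by
    refine ⟨?_, (sub_mem (pow_mem hV p) hV : a ^ p - a ∈ ETA_V hv)⟩
    rw [map_sub, map_pow, ha, add_pow_char, one_pow]
    ring
  have hD : ∀ j, D j a = - D j (a ^ p - a) := by
    intro j
    rw [map_sub, Derivation.leibniz_pow, ← Nat.cast_smul_eq_nsmul K, CharP.cast_eq_zero, zero_smul]
    ring
  refine ⟨hV, ?_⟩
  have : (fun j => D j a) = -(fun j => D j (a ^ p - a)) := by
    funext j; rw [Pi.neg_apply]; exact hD j
  rw [this]
  exact neg_mem (ETA_UOF hv D s _ hf).2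

lemma ETA_Uall (hEXP : EXP_stmt.{u}) {v : K → ℤ} (hv : DVal v) (p : ℕ) [Fact p.Prime] [CharP K p]
    (D : Fin n → Derivation k K K) (s : K →+* K) (hs : ∀ y, s^[p] y = y) (hloc : Loc s v)
    (a : K) (ha : s a = a + 1) (hva : Ge v 0 a) (y : K) (hy : Ge v 0 y) : y ∈ ETA_U hv D s := by
  have hint : ∀ b, IntS s v b → b ∈ ETA_U hv D s := by
    intro b hb
    obtain ⟨c, hc, rfl⟩ := ETA_coef hEXP hv p s hs a ha hva b hb
    apply sum_mem
    intro i _
    exact mul_mem (ETA_UOF hv D s _ (hc i)) (pow_mem (ETA_Ua hv p D s a ha hva) _)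
  obtain ⟨b, c, hb, hc, hc0, hvc, rfl⟩ := hloc y hy
  rw [div_eq_mul_inv]
  exact mul_mem (hint b hb) (ETA_Uinv hv D s c (hint c hc) hc0 hvc)

lemma ETA_Spmul {v : K → ℤ} (hv : DVal v) (J : Set K) (o : K) (ho : Ge v 0 o) (x : K) (hx : x ∈ Sp v 0 J) :
    o * x ∈ Sp v 0 J := by
  unfold Sp at hx
  induction hx using AddSubgroup.closure_induction with
  | mem r hr =>
    obtain ⟨o', ho', j, hj, rfl⟩ := hr
    apply AddSubgroup.subset_closure
    refine ⟨o * o', ?_, j, hj, by ring⟩
    have := ETA_gmul hv ho ho'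
    rwa [add_zero] at this
  | zero => rw [mul_zero]; exact zero_mem _
  | add x y _ _ hx hy => rw [mul_add]; exact add_mem hx hy
  | neg x _ hx => rw [mul_neg]; exact neg_mem hx

lemma ETA_det {v : K → ℤ} (hv : DVal v) (D : Fin n → Derivation k K K) (s : K →+* K) (T : Finset (Fin n)) :
    ∀ M : Matrix (Fin n) (Fin n) K, (∀ i ∈ T, M i ∈ ETA_W D s v) →
      (∀ i ∉ T, ∃ o : K, Ge v 0 o ∧ ∃ e ∈ OF s v, M i = fun j => o * D j e) →
      M.det ∈ Sp v 0 (JO D s v : Set K) := by
  induction T using Finset.induction_on with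
  | empty =>
    intro M _ hM
    choose o ho e he hM using fun i => hM i (Finset.notMem_empty i)
    have h1 : M = Matrix.of fun i j => o i * (Matrix.of fun i j => D j (e i)) i j := by
      ext i j
      rw [hM i]
      rfl
    rw [h1, Matrix.det_mul_column]
    apply AddSubgroup.subset_closure
    refine ⟨∏ i, o i, ?_, Matrix.det (Matrix.of fun i j => D j (e i)), ?_, rfl⟩
    · exact (prod_mem (fun i _ => ho i) : ∏ i, o i ∈ (ETA_V hv))
    · apply AddSubgroup.subset_closure
      refine ⟨1, ⟨map_one s, one_mem (ETA_V hv)⟩, e, he, ?_⟩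
      rw [one_mul]; rfl
  | insert i0 T hi0 ih =>
    intro M hMT hM
    have key : ∀ r ∈ ETA_W D s v, (M.updateRow i0 r).det ∈ Sp v 0 (JO D s v : Set K) := by
      intro r hr
      unfold ETA_W at hr
      induction hr using AddSubgroup.closure_induction with
      | mem r hr =>
        apply ih
        · intro i hi
          have hne : i ≠ i0 := fun h => hi0 (h ▸ hi)
          rw [Matrix.updateRow_ne hne]
          exact hMT i (Finset.mem_insert_of_mem hi)
        · intro i hi
          by_cases hne : i = i0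
          · subst hne
            rw [Matrix.updateRow_self]
            exact hr
          · rw [Matrix.updateRow_ne hne]
            exact hM i (by simp [hne, hi])
      | zero =>
        rw [Matrix.det_eq_zero_of_row_eq_zero i0]
        · exact zero_mem _
        · intro j; rw [Matrix.updateRow_self]; rfl
      | add x y _ _ hx hy =>
        rw [Matrix.det_updateRow_add]
        exact add_mem hx hy
      | neg x _ hx =>
        have : -x = (-1 : K) • x := by simp
        rw [this, Matrix.det_updateRow_smul, neg_one_mul]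
        exact neg_mem hx
    have := key (M i0) (hMT i0 (Finset.mem_insert_self _ _))
    rwa [Matrix.updateRow_eq_self] at this

end ETArow

/-- Row ETA. -/
theorem ETA (hEXP : EXP_stmt.{u}) : ETA_stmt.{u} := by
  intro k K _ _ _ n p _ _ D s v hv hs hloc a ha hva y hy
  apply ETA_det hv D s Finset.univ
  · intro i _
    exact (ETA_Uall hEXP hv p D s hs hloc a ha hva (y i) (hy i)).2
  · intro i hi
    exact absurd (Finset.mem_univ i) hi

end Pool.Agent.PC
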