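import Pool.Agent.helper51.PC.Spec
import Pool.Agent.helper90.PC.ETA

/-!
# Row pc:PRJ
-/

set_option autoImplicit false

namespace Pool.Agent.PC

open MvPolynomial

universe u

section PRJpoly

variable {k : Type u} [Field k] {n : ℕ}

lemma PRJ_td (P : AA k n) (i : Fin n) (h : pderiv i P ≠ 0) : (pderiv i P).totalDegree < P.totalDegree := by
  have key : ∀ m ∈ (pderiv i P).support, (m.sum fun _ e => e) + 1 ≤ P.totalDegree := by
    intro m hm
    rw [mem_support_iff, coeff_pderiv] at hm
    have h1 : m + Finsupp.single i 1 ∈ P.support := by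
      rw [mem_support_iff]
      exact left_ne_zero_of_mul hm
    have h2 := le_totalDegree h1
    rw [Finsupp.sum_add_index' (by simp) (by simp)] at h2
    rw [Finsupp.sum_single_index (by rfl)] at h2
    exact h2
  obtain ⟨m, hm⟩ : (pderiv i P).support.Nonempty := by
    rw [Finset.nonempty_iff_ne_empty]
    intro h1
    exact h (support_eq_empty.1 h1)
  have hpos : 0 < P.totalDegree := by
    have := key m hm
    omega
  rw [totalDegree, Finset.sup_lt_iff (by exact hpos)]
  intro m hm
  have := key m hm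
  omega

lemma PRJ_vars (P : AA k n) (i j : Fin n) (h : j ∉ P.vars) : j ∉ (pderiv i P).vars := by
  intro hj
  rw [mem_vars_iff_mem_support] at hj
  obtain ⟨m, hm, hjm⟩ := hj
  apply h
  rw [mem_vars_iff_mem_support]
  rw [mem_support_iff, coeff_pderiv] at hm
  refine ⟨m + Finsupp.single i 1, ?_, ?_⟩
  · rw [mem_support_iff]
    exact left_ne_zero_of_mul hm
  · rw [Finsupp.mem_support_iff] at hjm ⊢
    rw [Finsupp.add_apply]
    omega

lemma PRJ_root (p : ℕ) [Fact p.Prime] [CharP k p] [IsAlgClosed k] (P : AA k n) (h : ∀ i, pderiv i P = 0) :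
    ∃ Q : AA k n, Q ^ p = P := by
  have hp0 : p ≠ 0 := (Fact.out : p.Prime).ne_zero
  have hdvd : ∀ m ∈ P.support, ∀ i, p ∣ m i := by
    intro m hm i
    rcases Nat.eq_zero_or_pos (m i) with h0 | h0
    · rw [h0]; exact dvd_zero p
    · have h1 := coeff_pderiv (i := i) P (m - Finsupp.single i 1)
      have h2 : m - Finsupp.single i 1 + Finsupp.single i 1 = m := by
        apply tsub_add_cancel_of_le
        rw [Finsupp.single_le_iff]
        exact h0
      rw [h i, coeff_zero, h2] at h1
      have h3 : (((m - Finsupp.single i 1 : Fin n →₀ ℕ) i : ℕ) : k) + 1 = ((m i : ℕ) : k) := by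
        rw [Finsupp.tsub_apply, Finsupp.single_eq_same, Nat.cast_sub h0]
        simp
      rw [h3] at h1
      have h4 : ((m i : ℕ) : k) = 0 := by
        rcases mul_eq_zero.1 h1.symm with h5 | h5
        · exact absurd h5 (mem_support_iff.1 hm)
        · exact h5
      exact (CharP.cast_eq_zero_iff k p _).1 h4
  choose c hc using fun m : Fin n →₀ ℕ => IsAlgClosed.exists_pow_nat_eq (coeff m P) (Nat.pos_of_ne_zero hp0)
  refine ⟨∑ m ∈ P.support, monomial (m.mapRange (fun e => e / p) (by simp)) (c m), ?_⟩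
  rw [sum_pow_char]
  conv_rhs => rw [P.as_sum]
  apply Finset.sum_congr rfl
  intro m hm
  rw [monomial_pow, hc]
  have h1 : p • m.mapRange (fun e => e / p) (by simp) = m := by
    ext i
    rw [Finsupp.smul_apply, Finsupp.mapRange_apply, smul_eq_mul]
    exact Nat.mul_div_cancel' (hdvd m hm i)
  rw [h1]

lemma PRJ_alg (D : Fin n → Derivation k (KK k n) (KK k n)) (hD : IsPar k n D) (j : Fin n) (P : AA k n) :
    D j (algebraMap (AA k n) (KK k n) P) = algebraMap (AA k n) (KK k n) (pderiv j P) := by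
  induction P using MvPolynomial.induction_on with
  | C a =>
    have : algebraMap (AA k n) (KK k n) (C a) = algebraMap k (KK k n) a := by
      rw [IsScalarTower.algebraMap_apply k (AA k n) (KK k n)]; rfl
    rw [this, Derivation.map_algebraMap, pderiv_C, map_zero]
  | add p q hp hq => rw [map_add, map_add, hp, hq, map_add, map_add]
  | mul_X p i hp =>
    rw [map_mul, Derivation.leibniz, hp, pderiv_mul, map_add, map_mul, map_mul, pderiv_X]
    have := hD j i
    unfold xx at this
    rw [this, smul_eq_mul, smul_eq_mul]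
    by_cases hij : j = i
    · subst hij; simp; ring
    · rw [if_neg hij, Pi.single_eq_of_ne (fun h => hij h.symm), map_zero]; ring

lemma PRJ_V {v : KK k n → ℤ} (hv : DVal v) (hx : ∀ i, Ge v 0 (xx k n i))
    (hc : ∀ c : k, c ≠ 0 → v (algebraMap k (KK k n) c) = 0) (P : AA k n) :
    algebraMap (AA k n) (KK k n) P ∈ ETA_V hv := by
  induction P using MvPolynomial.induction_on with
  | C a =>
    have : algebraMap (AA k n) (KK k n) (C a) = algebraMap k (KK k n) a := by
      rw [IsScalarTower.algebraMap_apply k (AA k n) (KK k n)]; rfl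
    rw [this, ETA_memV]
    rcases eq_or_ne a 0 with h | h
    · left; rw [h, map_zero]
    · right; rw [hc a h]
  | add p q hp hq => rw [map_add]; exact add_mem hp hq
  | mul_X p i hp => rw [map_mul]; exact mul_mem hp (hx i)

lemma PRJ_vpow {K : Type u} [Field K] {v : K → ℤ} (hv : DVal v) (w : K) (hw : w ≠ 0) (m : ℕ) :
    v (w ^ m) = m * v w := by
  induction m with
  | zero => rw [pow_zero, ETA_v1 hv]; simp
  | succ m ih =>
    rw [pow_succ, hv.mul _ _ (pow_ne_zero _ hw) hw, ih]
    push_cast; ring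

/-- The minimal polynomial. -/
lemma PRJ_min (p : ℕ) [Fact p.Prime] [CharP k p] [IsAlgClosed k] {v : KK k n → ℤ} (hv : DVal v)
    (hx : ∀ i, Ge v 0 (xx k n i))
    (hc : ∀ c : k, c ≠ 0 → v (algebraMap k (KK k n) c) = 0) (i0 : Fin n)
    (hP : ∃ P : AA k n, P ≠ 0 ∧ i0 ∉ P.vars ∧ 0 < v (algebraMap (AA k n) (KK k n) P)) :
    ∃ (P : AA k n) (i : Fin n), P ≠ 0 ∧ i0 ∉ P.vars ∧ 0 < v (algebraMap (AA k n) (KK k n) P) ∧ i ≠ i0 ∧
      pderiv i P ≠ 0 ∧ v (algebraMap (AA k n) (KK k n) (pderiv i P)) = 0 := by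
  classical
  have hinj : Function.Injective (algebraMap (AA k n) (KK k n)) := IsFractionRing.injective _ _
  obtain ⟨P, ⟨hP0, hPv, hPp⟩, hmin⟩ : ∃ P : AA k n, (P ≠ 0 ∧ i0 ∉ P.vars ∧ 0 < v (algebraMap (AA k n) (KK k n) P)) ∧
      ∀ Q : AA k n, (Q ≠ 0 ∧ i0 ∉ Q.vars ∧ 0 < v (algebraMap (AA k n) (KK k n) Q)) →
        P.totalDegree ≤ Q.totalDegree := by
    have h1 : ∃ d : ℕ, ∃ P : AA k n, (P ≠ 0 ∧ i0 ∉ P.vars ∧ 0 < v (algebraMap (AA k n) (KK k n) P)) ∧
        P.totalDegree = d := by
      obtain ⟨P, hP⟩ := hP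
      exact ⟨_, P, hP, rfl⟩
    obtain ⟨P, hP, hd⟩ := Nat.find_spec h1
    refine ⟨P, hP, ?_⟩
    intro Q hQ
    rw [hd]
    exact Nat.find_min' h1 ⟨Q, hQ, rfl⟩
  have hex : ∃ i, pderiv i P ≠ 0 := by
    by_contra hall
    push Not at hall
    obtain ⟨Q, hQ⟩ := PRJ_root p P hall
    have hp2 : 2 ≤ p := (Fact.out : p.Prime).two_le
    have hQ0 : Q ≠ 0 := by
      rintro rfl
      rw [zero_pow (by omega)] at hQ
      exact hP0 hQ.symm
    have hQv : i0 ∉ Q.vars := by
      rw [mem_vars_iff_degreeOf_ne_zero, not_not]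
      rw [mem_vars_iff_degreeOf_ne_zero, not_not, ← hQ, degreeOf_pow_eq i0 Q p hQ0] at hPv
      rcases Nat.mul_eq_zero.1 hPv with h | h
      · omega
      · exact h
    have hQp : 0 < v (algebraMap (AA k n) (KK k n) Q) := by
      have h1 : algebraMap (AA k n) (KK k n) Q ≠ 0 := fun h => hQ0 (hinj (by rw [h, map_zero]))
      rw [← hQ, map_pow, PRJ_vpow hv _ h1] at hPp
      by_contra h2
      push Not at h2
      have : (p : ℤ) * v (algebraMap (AA k n) (KK k n) Q) ≤ 0 :=
        mul_nonpos_of_nonneg_of_nonpos (by positivity) h2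
      omega
    have h3 := hmin Q ⟨hQ0, hQv, hQp⟩
    obtain ⟨r, rfl⟩ : ∃ r, p = r + 2 := ⟨p - 2, by omega⟩
    have h4 : P = Q * (Q * Q ^ r) := by rw [← hQ]; ring
    rw [h4, totalDegree_mul_of_isDomain hQ0 (mul_ne_zero hQ0 (pow_ne_zero _ hQ0)),
      totalDegree_mul_of_isDomain hQ0 (pow_ne_zero _ hQ0)] at h3
    have h5 : Q.totalDegree = 0 := by omega
    rw [totalDegree_eq_zero_iff_eq_C] at h5
    rw [h5] at hQp hQ0
    have h6 : algebraMap (AA k n) (KK k n) (C (coeff 0 Q)) = algebraMap k (KK k n) (coeff 0 Q) := by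
      rw [IsScalarTower.algebraMap_apply k (AA k n) (KK k n)]; rfl
    rw [h6, hc _ (fun h => hQ0 (by rw [h, C_0]))] at hQp
    exact lt_irrefl _ hQp
  obtain ⟨i, hi⟩ := hex
  refine ⟨P, i, hP0, hPv, hPp, ?_, hi, ?_⟩
  · rintro rfl
    exact hi (pderiv_eq_zero_of_notMem_vars hPv)
  · have h1 : algebraMap (AA k n) (KK k n) (pderiv i P) ≠ 0 := fun h => hi (hinj (by rw [h, map_zero]))
    have h2 := (ETA_memV hv _).1 (PRJ_V hv hx hc (pderiv i P))
    have h3 := h2.resolve_left h1
    have h4 : ¬ 0 < v (algebraMap (AA k n) (KK k n) (pderiv i P)) := by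
      intro h5
      have := hmin _ ⟨hi, PRJ_vars P i i0 hPv, h5⟩
      have := PRJ_td P i hi
      omega
    omega

end PRJpoly

section PRJmain

variable {k K : Type u} [Field k] [Field K] [Algebra k K] {n : ℕ}

/-- The module `J`. -/
def PRJ_J (D : Fin n → Derivation k K K) (v : K → ℤ) : AddSubgroup K :=
  AddSubgroup.closure {z | ∃ c : K, Ge v 0 c ∧ ∃ y : Fin n → K, (∀ i, Ge v 0 (y i)) ∧ z = c * JJ D y}

lemma PRJ_gen {v : K → ℤ} (D : Fin n → Derivation k K K) (c : K) (hc : Ge v 0 c) (y : Fin n → K)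
    (hy : ∀ i, Ge v 0 (y i)) : c * JJ D y ∈ PRJ_J D v :=
  AddSubgroup.subset_closure ⟨c, hc, y, hy, rfl⟩

lemma PRJ_upd (D : Fin n → Derivation k K K) (y : Fin n → K) (i : Fin n) (z : K) :
    JJ D (Function.update y i z) = ((Matrix.of fun i j => D j (y i)).updateRow i (fun j => D j z)).det := by
  unfold JJ
  congr 1
  ext a b
  by_cases h : a = i
  · subst h
    rw [Matrix.updateRow_self, Matrix.of_apply, Function.update_self]
  · rw [Matrix.updateRow_ne h, Matrix.of_apply, Function.update_of_ne h, Matrix.of_apply]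

end PRJmain

/-- Row PRJ. -/
theorem PRJ : PRJ_stmt.{u} := by
  intro k _ _ n p hn _ _ D hD v hv hx hc h0
  classical
  set i0 : Fin n := ⟨0, hn⟩ with hi0
  change _ ∈ PRJ_J D v
  have hinj : Function.Injective (algebraMap (AA k n) (KK k n)) := IsFractionRing.injective _ _
  have hx0 : xx k n i0 ≠ 0 := by
    unfold xx
    intro h
    have : (X i0 : AA k n) = 0 := hinj (by rw [h, map_zero])
    exact X_ne_zero i0 this
  have hJx : JJ D (xx k n) = 1 := by
    unfold JJ
    have : (Matrix.of fun i j => D j (xx k n i)) = 1 := by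
      ext i j
      rw [Matrix.of_apply, hD j i, Matrix.one_apply]
      by_cases h : i = j
      · rw [if_pos h, if_pos h.symm]
      · rw [if_neg h, if_neg (fun h' => h h'.symm)]
    rw [this, Matrix.det_one]
  have hxv := (hx i0).resolve_left hx0
  by_cases hcase : v (xx k n i0) = 0
  · have h1 : (xx k n i0)⁻¹ = (xx k n i0)⁻¹ * JJ D (xx k n) := by rw [hJx, mul_one]
    rw [h1]
    apply PRJ_gen D _ _ _ hx
    right
    rw [ETA_vinv hv _ hx0, hcase]; norm_num
  · obtain ⟨P, i, hP0, hPv, hPp, hi, hdi, hvi⟩ := PRJ_min p hv hx hc i0 (h0.resolve_left hcase)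
    obtain ⟨w, hw0, hw1⟩ := hv.one
    have hwV : Ge v 0 w := Or.inr (by omega)
    obtain ⟨e, he⟩ : ∃ e : ℕ, v (xx k n i0) = e := ⟨(v (xx k n i0)).toNat, by omega⟩
    set u : KK k n := xx k n i0 / w ^ e with hu
    have hwe : w ^ e ≠ 0 := pow_ne_zero _ hw0
    have hu0 : u ≠ 0 := div_ne_zero hx0 hwe
    have hxu : xx k n i0 = w ^ e * u := by rw [hu]; field_simp
    have hvu : v u = 0 := by
      have := hv.mul (w ^ e) u hwe hu0
      rw [← hxu, PRJ_vpow hv w hw0, hw1, he] at this
      omega
    have hwx : ∀ z : KK k n, Ge v 0 z → ∀ l, Ge v 0 (Function.update (xx k n) i0 z l) := by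
      intro z hz l
      by_cases h : l = i0
      · subst h; rw [Function.update_self]; exact hz
      · rw [Function.update_of_ne h]; exact hx l
    -- the first reduction
    have h1 : (xx k n i0)⁻¹ = (e : KK k n) * (w⁻¹ * JJ D (Function.update (xx k n) i0 w)) +
        u⁻¹ * JJ D (Function.update (xx k n) i0 u) := by
      have h2 : JJ D (xx k n) = JJ D (Function.update (xx k n) i0 (w ^ e * u)) := by
        rw [← hxu, Function.update_eq_self]
      rw [PRJ_upd] at h2
      have h3 : (fun j => D j (w ^ e * u)) =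
          (e * (w ^ e * w⁻¹) * u) • (fun j => D j w) + (w ^ e) • (fun j => D j u) := by
        funext j
        rw [Derivation.leibniz, Derivation.leibniz_pow, Pi.add_apply, Pi.smul_apply, Pi.smul_apply]
        simp only [smul_eq_mul, nsmul_eq_mul]
        rcases Nat.eq_zero_or_pos e with he0 | he0
        · rw [he0]; simp
        · have h4 : w ^ e * w⁻¹ = w ^ (e - 1) := by
            have : w ^ e = w ^ (e - 1) * w := by rw [← pow_succ, Nat.sub_add_cancel he0]
            rw [this, mul_assoc, mul_inv_cancel₀ hw0, mul_one]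
          rw [h4]; ring
      rw [h3, Matrix.det_updateRow_add, Matrix.det_updateRow_smul, Matrix.det_updateRow_smul, ← PRJ_upd, ← PRJ_upd,
        hJx] at h2
      have h5 : (xx k n i0)⁻¹ = (xx k n i0)⁻¹ * 1 := (mul_one _).symm
      rw [h5, h2, hxu]
      field_simp
    rw [h1]
    apply add_mem
    swap
    · apply PRJ_gen D _ _ _ (hwx u (Or.inr hvu.ge))
      right; rw [ETA_vinv hv _ hu0, hvu]; norm_num
    rw [← nsmul_eq_mul]
    apply nsmul_mem
    -- the second reduction
    set y : Fin n → KK k n := Function.update (xx k n) i0 w with hy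
    set c : KK k n := algebraMap (AA k n) (KK k n) (pderiv i P) with hcdef
    set PP : KK k n := algebraMap (AA k n) (KK k n) P with hPP
    set P' : KK k n := PP / w with hP'
    have hPP0 : PP ≠ 0 := fun h => hP0 (hinj (by rw [← hPP, h, map_zero]))
    have hc0 : c ≠ 0 := fun h => hdi (hinj (by rw [← hcdef, h, map_zero]))
    have hP'0 : P' ≠ 0 := div_ne_zero hPP0 hw0
    have hPw : PP = w * P' := by rw [hP']; field_simp
    have hP'v : Ge v 0 P' := by
      right
      have := hv.mul w P' hw0 hP'0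
      rw [← hPw, hw1] at this
      omega
    set M : Matrix (Fin n) (Fin n) (KK k n) := Matrix.of fun i j => D j (y i) with hM
    have h6 : (fun j => D j PP) = ∑ l, (algebraMap (AA k n) (KK k n) (pderiv l P)) • M l := by
      funext j
      rw [Finset.sum_apply, hPP, PRJ_alg D hD j P, Finset.sum_eq_single j]
      · rw [Pi.smul_apply, smul_eq_mul, hM, Matrix.of_apply, hy]
        by_cases h : j = i0
        · subst h
          rw [pderiv_eq_zero_of_notMem_vars hPv, map_zero, zero_mul]
        · rw [Function.update_of_ne h, hD j j, if_pos rfl, mul_one]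
      · intro l _ hl
        rw [Pi.smul_apply, smul_eq_mul, hM, Matrix.of_apply, hy]
        by_cases h : l = i0
        · subst h
          rw [pderiv_eq_zero_of_notMem_vars hPv, map_zero, zero_mul]
        · rw [Function.update_of_ne h, hD j l, if_neg (fun h' => hl h'.symm), mul_zero]
      · intro h; exact absurd (Finset.mem_univ j) h
    have h7 : (M.updateRow i (fun j => D j PP)).det = c * M.det := by
      rw [h6, Matrix.det_updateRow_sum, smul_eq_mul]
    have h8 : (fun j => D j PP) = P' • (M i0) + w • (fun j => D j P') := by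
      funext j
      rw [hPw, Derivation.leibniz, Pi.add_apply, Pi.smul_apply, Pi.smul_apply, hM, Matrix.of_apply, hy,
        Function.update_self]
      simp only [smul_eq_mul]
      ring
    have h9 : (M.updateRow i (fun j => D j PP)).det = w * (M.updateRow i (fun j => D j P')).det := by
      rw [h8, Matrix.det_updateRow_add, Matrix.det_updateRow_smul, Matrix.det_updateRow_smul,
        Matrix.det_updateRow_eq_zero hi.symm, mul_zero, zero_add]
    have h10 : w⁻¹ * JJ D y = c⁻¹ * JJ D (Function.update y i P') := by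
      rw [PRJ_upd D y i P']
      have h11 : c * M.det = w * (M.updateRow i (fun j => D j P')).det := by rw [← h7, h9]
      have h12 : JJ D y = M.det := rfl
      rw [h12]
      have h13 : M.det = c⁻¹ * (w * (M.updateRow i (fun j => D j P')).det) := by
        rw [← h11, ← mul_assoc, inv_mul_cancel₀ hc0, one_mul]
      have h14 : ∀ Z : KK k n, w⁻¹ * (c⁻¹ * (w * Z)) = c⁻¹ * Z := by
        intro Z; field_simp
      rw [h13, h14]
    rw [h10]
    apply PRJ_gen
    · right; rw [ETA_vinv hv _ hc0, hvi]; norm_num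
    · intro l
      by_cases h : l = i
      · subst h; rw [Function.update_self]; exact hP'v
      · rw [Function.update_of_ne h]; exact hwx w hwV l

end Pool.Agent.PC
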